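import Pool.Agent.Zk81.Out.Mix

/-! # MP_d26ff6_al: structures whose value groups are large, or large modulo the core

Let `S = (G, -1, q)` be a finite quaternionic structure whose quaternions lie in a group of exponent
two in which `q` is additive (for instance the structure of any field), let
`V(a) = {x : q(a,x) = 0}`, and let `C` be the core.

Theorem.  If for each `a ∉ C` the index of `V(a)` is at most eight or the index of `V(a) C` is at
most four, then `S` is of elementary type.  Less than `|G|/16` exceptions `a` are allowed.  If only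
the second condition is used, less than `|G|/8` exceptions are allowed, and even arbitrary exceptions
in a subgroup `L ≠ G` and less than `|G|/16` further ones.

Outline.  Let `H` be a closed subgroup of index at least eight and `χ` a symbol on `H`, and consider
the pairs `(q(w,v), χ(w,v))`, `w ∈ H`.  Sums of pairs with `w ∈ C` are pairs.  If `χ` is not a
function of the quaternions with a slot in `H`, then linkage gives a sum of two or three pairs which
modulo the pairs from `C` is not a sum of fewer ones.  As in the case without core one finds, for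
each nonzero homomorphism `f : G → Z/2`, at least `|G|/8` elements `b` with `f(b) = 1` such that the
members `w` of the pairs generate a subgroup `W` of order four or eight with `V(b) ∩ WC ≤ C`.  So
`V(b) C` has index at least eight for `b ∉ H`.  If `W` has order four, take `f` with `f(C^⊥) = 0`:
then `C ⊄ V(b)`, so `V(b)` has index at least sixteen. -/

set_option autoImplicit false

namespace Pool.Agent.Results.MP_d26ff6_al.IndexModuloCore

open Pool.Agent.H315R3.ETC Pool.Agent.TH673.VG

universe v

/-- `V(a)`, the subgroup generated by all `x` with `q(a,x) = 0` (it is the set of these `x`) -/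
def V (S : QData) (a : S.G) : Subgroup S.G := Subgroup.closure {x : S.G | S.q a x = S.zero}

/-- the elements `a` outside the core such that `V(a)` has index more than eight and `V(a) C` has
index more than four -/
def E (S : QData) : Set S.G := {a | a ∉ Core S ∧ 8 < (V S a).index ∧ 4 < (V S a ⊔ Core S).index}

/-- the elements `a` outside the core such that `V(a) C` has index more than four -/
def E' (S : QData) : Set S.G := {a | a ∉ Core S ∧ 4 < (V S a ⊔ Core S).index}

/-- the elements `b` outside `H` such that `V(b) ∩ H` has index at least eight in `H` and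
`V(b) C ∩ H` has index at least four in `H` -/
def EE (S : QData) (H : Subgroup S.G) : Set S.G :=
  {b | b ∉ H ∧ 8 ≤ (V S b).relIndex H ∧ 4 ≤ (V S b ⊔ Core S).relIndex H}

/-- the elements `b` outside `H` such that `V(b) C ∩ H` has index at least four in `H` -/
def EE' (S : QData) (H : Subgroup S.G) : Set S.G :=
  {b | b ∉ H ∧ 4 ≤ (V S b ⊔ Core S).relIndex H}

theorem result (S : QData) (hS : IsQuat S) (hfin : Finite S.G)
    -- the quaternions lie in a group `B` of exponent two in which `q` is additive
    {B : Type v} [AddCommGroup B] (hB : ∀ b : B, b + b = 0) (β : S.G → S.G → B)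
    (hmul : ∀ a b c, β a (b * c) = β a b + β a c)
    (hq : ∀ a b c d, β a b = β c d ↔ S.q a b = S.q c d) :
    -- for each `a` outside the core, `V(a)` has index at most eight or `V(a) C` has index at most
    -- four
    ((∀ a : S.G, a ∉ Core S → (V S a).index ≤ 8 ∨ (V S a ⊔ Core S).index ≤ 4) → Elem S) ∧
    -- less than `|G|/16` exceptions
    (16 * (E S).ncard < Nat.card S.G → Elem S) ∧
    -- less than `|G|/8` elements `a` outside the core with `V(a) C` of index more than four
    (8 * (E' S).ncard < Nat.card S.G → Elem S) ∧
    -- less than `|G|/16` such elements outside a proper subgroup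
    (∀ L : Subgroup S.G, L ≠ ⊤ → 16 * (E' S \ L).ncard < Nat.card S.G → Elem S) ∧
    -- the same with indices in the closed subgroups `H` of index at least eight
    ((∀ H : Subgroup S.G, Closed S H → 8 ≤ H.index → 16 * (EE S H).ncard < Nat.card S.G) →
      Elem S) ∧
    ((∀ H : Subgroup S.G, Closed S H → 8 ≤ H.index → 8 * (EE' S H).ncard < Nat.card S.G ∨
      ∃ L : Subgroup S.G, L ≠ ⊤ ∧ 16 * (EE' S H \ L).ncard < Nat.card S.G) → Elem S) := by
  have hA : Pool.Agent.N88.ETC.Add S β := ⟨hB, hmul, hq⟩
  have hV : ∀ a : S.G, V S a = D hS a := by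
    intro a
    refine le_antisymm ?_ ?_
    · rw [V, Subgroup.closure_le]
      exact fun x hx => hx
    · exact fun x hx => Subgroup.subset_closure hx
  have h2 : 16 * (E S).ncard < Nat.card S.G → Elem S := by
    intro h
    refine Pool.Agent.Zk81.Out.elem_mix hS hA ?_
    have e : {a : S.G | a ∉ Core S ∧ 8 < (D hS a).index ∧ 4 < (D hS a ⊔ Core S).index} = E S := by
      ext a
      show _ ↔ _ ∧ 8 < (V S a).index ∧ 4 < (V S a ⊔ Core S).index
      rw [hV]
      exact Iff.rfl
    rw [e]
    exact h
  have e' : {a : S.G | a ∉ Core S ∧ 4 < (D hS a ⊔ Core S).index} = E' S := by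
    ext a
    show _ ↔ _ ∧ 4 < (V S a ⊔ Core S).index
    rw [hV]
    exact Iff.rfl
  refine ⟨fun h => h2 ?_, h2, fun h => ?_, fun L hL h => ?_, fun h => ?_, fun h => ?_⟩
  · have : E S = ∅ := by
      rw [Set.eq_empty_iff_forall_notMem]
      rintro a ⟨ha, h8, h4⟩
      rcases h a ha with h' | h'
      · omega
      · omega
    rw [this, Set.ncard_empty]
    exact Nat.card_pos
  · exact Pool.Agent.Zk81.Out.elem_rel hS hA (e' ▸ Or.inl h)
  · exact Pool.Agent.Zk81.Out.elem_rel hS hA (e' ▸ Or.inr ⟨L, hL, h⟩)
  · refine Pool.Agent.Zk81.Out.elem_mix_local hS hA fun H hcl hi => ?_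
    have e : {a : S.G | a ∉ H ∧ 8 ≤ (D hS a).relIndex H ∧ 4 ≤ (D hS a ⊔ Core S).relIndex H} =
        EE S H := by
      ext a
      show _ ↔ _ ∧ 8 ≤ (V S a).relIndex H ∧ 4 ≤ (V S a ⊔ Core S).relIndex H
      rw [hV]
      exact Iff.rfl
    rw [e]
    exact h H hcl hi
  · refine Pool.Agent.Zk81.Out.elem_rel_local hS hA fun H hcl hi => ?_
    have e : {a : S.G | a ∉ H ∧ 4 ≤ (D hS a ⊔ Core S).relIndex H} = EE' S H := by
      ext a
      show _ ↔ _ ∧ 4 ≤ (V S a ⊔ Core S).relIndex H
      rw [hV]
      exact Iff.rfl
    rw [e]
    exact h H hcl hi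

end Pool.Agent.Results.MP_d26ff6_al.IndexModuloCore
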