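import Pool.Agent.Zk92.ET.Prob

/-! # MP_d26ff6_al: structures in which 3/16 of all pairs are orthogonal

Let `S = (G, -1, q)` be a finite quaternionic structure whose quaternions lie in a group of exponent
two in which `q` is additive (for instance the structure of any field), let
`V(a) = {x : q(a,x) = 0}` and let `C` be the core.

Theorem.  `S` is of elementary type in each of the following cases.
* Among the `a ∉ C` at most two more have `V(a)` of index more than eight than have `V(a)` of index
  less than eight.
* At least 3/16 of all pairs `(a,b)` satisfy `q(a,b) = 0` (no condition on the core).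
* For each closed subgroup `H` of index at least eight, among the `b ∉ H` at most two more have at
  least eight quaternions `q(b,k)`, `k ∈ H`, than have less than four.

Outline.  Let `H` be a closed subgroup of index at least eight, `χ` a symbol on `H`, and suppose that
`χ` is not a function of the quaternions with a slot in `H`. Linkage gives a sum of three pairs
`(q(w,v), χ(w,v))`, `w ∈ H`, which is not a sum of two such pairs. Let `W` be the group of order
eight generated by the three `w`. Each of the seven linear forms `l` on `W` gives a homomorphism
`f_l : G → Z/2` which vanishes on all `V(w)`, `w ∈ W`, `l(w) ≠ 0`, and takes the value one at the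
element `l(v)`. For `b ∈ G` let `z(b)` be the dimension of the orthogonal complement in `W` of the
`l` with `f_l(b) = 1`; then `V(b) ∩ W` has order at most `2 ^ z(b)`, so that `V(b) ∩ H` has index at
least `2 ^ (3 - z(b))` in `H`, and, as `H` is closed, `V(b)` has index at least `2 ^ (4 - z(b))` in
`G` if `b ∉ H`. On a coset `b U`, `U` generated by the three `v`, let `Z(P)`, `P ∈ (Z/2)^3`, be the
eight orthogonal complements; since `f_l` takes different values at `b P` and `b P'` if `l` is the
form `P + P'`, this form vanishes on `Z(P)` or on `Z(P')`. It follows that the sum of the eight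
dimensions is at most seven (and that a certain weighted sum is at most fifty). So the mean of `z`
over `G` is at most 7/8, while at most 1/8 of all elements are in `H` and `z(1) = 3`; the indices
outside `H` are therefore more often large than small. For the second case the number of the
orthogonal pairs is estimated in the same way. -/

set_option autoImplicit false

namespace Pool.Agent.Results.MP_d26ff6_al.MedianIndex

open Pool.Agent.H315R3.ETC Pool.Agent.TH673.VG

universe v

/-- the number of quaternions of the form `q(a,x)`, `x ∈ G`: the index of `V(a) = {x : q(a,x) = 0}`
in `G` -/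
noncomputable def index (S : QData) (a : S.G) : ℕ := {t : S.Q | ∃ x : S.G, S.q a x = t}.ncard

/-- the number of quaternions of the form `q(a,k)`, `k ∈ H`: the index of `V(a) ∩ H` in `H` -/
noncomputable def indexIn (S : QData) (H : Subgroup S.G) (a : S.G) : ℕ :=
  {t : S.Q | ∃ k ∈ H, S.q a k = t}.ncard

theorem result (S : QData) (hS : IsQuat S) (hfin : Finite S.G)
    -- the quaternions lie in a group `B` of exponent two in which `q` is additive
    {B : Type v} [AddCommGroup B] (hB : ∀ b : B, b + b = 0) (β : S.G → S.G → B)
    (hmul : ∀ a b c, β a (b * c) = β a b + β a c)
    (hq : ∀ a b c d, β a b = β c d ↔ S.q a b = S.q c d) :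
    -- outside the core at most two more value groups of index more than eight than of index less
    -- than eight
    ({a : S.G | a ∉ Core S ∧ 8 < index S a}.ncard ≤
      {a : S.G | a ∉ Core S ∧ index S a < 8}.ncard + 2 → Elem S) ∧
    -- at least 3/16 of all pairs are orthogonal
    (3 * Nat.card S.G ^ 2 ≤ 16 * {p : S.G × S.G | S.q p.1 p.2 = S.zero}.ncard → Elem S) ∧
    -- the first condition for the closed subgroups of index at least eight
    ((∀ H : Subgroup S.G, Closed S H → 8 ≤ H.index →
      {b : S.G | b ∉ H ∧ 8 ≤ indexIn S H b}.ncard ≤
        {b : S.G | b ∉ H ∧ indexIn S H b < 4}.ncard + 2) → Elem S) := by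
  have hA : Pool.Agent.N88.ETC.Add S β := ⟨hB, hmul, hq⟩
  let _ : Fintype S.G := Fintype.ofFinite S.G
  refine ⟨fun h => Pool.Agent.Zk92.ET.elem_median hS hA h, fun h => ?_,
    fun h => Pool.Agent.Zk92.ET.elem_median_local hS hA h⟩
  rw [Nat.card_eq_fintype_card] at h
  exact Pool.Agent.Zk92.ET.elem_prob hS hA h

end Pool.Agent.Results.MP_d26ff6_al.MedianIndex
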