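import Pool.Agent.Zk20.ET.Retract
import Pool.Agent.Zk20.ET.FieldD
import Pool.Agent.TH188.ET.Conv

/-! # MP_d26ff6_al: descent of elementary type

Elementary type passes from a structure to its retracts, to the fixed structure of a group of
automorphisms of odd order, and from a field to all subfields over which it is algebraic without
finite subextensions of even degree. -/

set_option autoImplicit false

universe u v

namespace Pool.Agent.Results.MP_d26ff6_al.OddDescent

open Pool.Agent.H315R3.ETC Pool.Agent.TH188.ET Pool.Agent.Zk20.ET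

theorem result :
    (∀ T : QData, IsQuat T → Finite T.G → Elem T →
      ∀ (H : Subgroup T.G) (hn : T.neg ∈ H) (p : T.G →* T.G), Retraction T H p →
        IsQuat (restr T H hn) ∧ Elem (restr T H hn)) ∧
    (∀ T : QData, IsQuat T → Finite T.G → Elem T →
      ∀ Γ : Subgroup (MulAut T.G), (∀ φ ∈ Γ, IsAut T φ) → Odd (Nat.card Γ) →
        ∃ hn : T.neg ∈ fixedBy Γ,
          IsQuat (restr T (fixedBy Γ) hn) ∧ Elem (restr T (fixedBy Γ) hn)) ∧
    (∀ (F : Type u) (K : Type v) [Field F] [Field K] [Algebra F K], (2 : F) ≠ 0 →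
      OddExt F K →
        (RelationsFromSlots K → RelationsFromSlots F) ∧
        (FinSq F → RelationsFromSlots K → ∃ S : QData, Elem S ∧ IsStructureOf F S) ∧
        (FinSq K → (∃ T : QData, Elem T ∧ IsStructureOf K T) →
          FinSq F ∧ ∃ S : QData, Elem S ∧ IsStructureOf F S)) := by
  refine ⟨?_, ?_, ?_⟩
  · intro T hT hfin hel H hn p hp
    exact restr_elem hT hfin hel hn hp
  · intro T hT hfin hel Γ hΓ hodd
    have : Finite T.G := hfin
    have : Finite (MulAut T.G) :=
      Finite.of_injective (fun φ : MulAut T.G => (φ : T.G → T.G)) (by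
        intro φ ψ h
        exact MulEquiv.ext (congrFun h))
    obtain ⟨p, hp⟩ := retraction_of_odd hT Γ hΓ hodd
    exact ⟨neg_mem_fixedBy Γ hΓ, restr_elem hT hfin hel _ hp⟩
  · intro F K _ _ _ h2 hK
    have key : FinSq F → RelationsFromSlots F → ∃ S : QData, Elem S ∧ IsStructureOf F S := by
      intro hfin h
      obtain ⟨S, hS, hSfin, hSq⟩ := exists_structure h2 hfin
      have hcrit := Pool.Agent.Results.MP_d26ff6_al.SymbolExtension.result S hSq hSfin
      refine ⟨S, ?_, hS⟩
      obtain ⟨φ, hs, hk, -, h0, hq⟩ := hS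
      exact hcrit.2.mpr (extend_of_slots h2 φ hs hk h0 hq hSfin (slots_of_relations h))
    have h2K : (2 : K) ≠ 0 := by
      intro h
      apply h2
      apply (algebraMap F K).injective
      rw [map_zero, map_ofNat]
      exact h
    refine ⟨relations_down hK, fun hF h => key hF (relations_down hK h), ?_⟩
    rintro hfin ⟨T, hT, hTs⟩
    have hF := finSq_down hK hfin
    refine ⟨hF, key hF (relations_down hK ?_)⟩
    obtain ⟨S, hS, hSfin, hSq⟩ := exists_structure h2K hfin
    have hE : Elem S := Elem.iso _ _ hT (iso_of_structure hTs hS)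
    have hcrit := Pool.Agent.Results.MP_d26ff6_al.SymbolExtension.result S hSq hSfin
    obtain ⟨φ, hs, hk, -, h0, hq⟩ := hS
    exact relations_of_extend h2K φ hs hk h0 hq (hcrit.1.mp hE)

end Pool.Agent.Results.MP_d26ff6_al.OddDescent
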