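import Pool.Agent.Zk81.Out.Vals

/-! # MP_d26ff6_al: structures whose value groups have index at most eight

Let `S = (G, -1, q)` be a finite quaternionic structure whose quaternions lie in a group of exponent
two in which `q` is additive (for instance the structure of any field), let
`V(a) = {x : q(a,x) = 0}`, let `C` be the core, and let `E` be the set of all `a ∉ C` with `V(a)` of
index more than eight.

Theorem.  If `E` is empty, then `S` is of elementary type.  It is enough that `|E| < |G|/8`, or that
some subgroup `L ≠ G` contains all but less than `|G|/16` elements of `E` (for instance that `E`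
does not generate `G`).

Outline.  Let `H` be a closed subgroup of index at least eight, `χ` a symbol on `H`, and suppose that
`χ` is not a function of the quaternions with a slot in `H`. Linkage gives a sum of three pairs
`(q(w,v), χ(w,v))`, `w ∈ H`, which is not a sum of two such pairs. Let `W` be the group of order
eight generated by the three `w`. Each of the seven linear forms `l` on `W` gives a homomorphism
`f_l : G → Z/2` which vanishes on all `V(w)`, `w ∈ W`, `l(w) ≠ 0`, and takes the value one at the
element `l(v)`. For each nonzero homomorphism `f : G → Z/2` an averaging argument over the Fano plane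
yields at least `|G|/8` elements `b` with `f(b) = 1` at which the `f_l` with `f_l(b) = 1` span the dual
of `W`, and then `V(b) ∩ W = 1`. Since `H` is closed, `V(b) W ≠ G` for `b ∉ H`, so `V(b)` has index
more than eight. -/

set_option autoImplicit false

namespace Pool.Agent.Results.MP_d26ff6_al.ValueGroupsEight

open Pool.Agent.H315R3.ETC Pool.Agent.TH673.VG

universe v

/-- the number of quaternions of the form `q(a,x)`, `x ∈ G`: the index of `V(a) = {x : q(a,x) = 0}`
in `G` -/
noncomputable def index (S : QData) (a : S.G) : ℕ := {t : S.Q | ∃ x : S.G, S.q a x = t}.ncard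

/-- the elements outside the core whose value groups have index more than eight -/
def E (S : QData) : Set S.G := {a | a ∉ Core S ∧ 8 < index S a}

/-- the elements `b` outside `H` such that at least eight quaternions are of the form `q(b,k)`,
`k ∈ H` -/
def EE (S : QData) (H : Subgroup S.G) : Set S.G :=
  {b | b ∉ H ∧ 8 ≤ {t : S.Q | ∃ k ∈ H, S.q b k = t}.ncard}

theorem result (S : QData) (hS : IsQuat S) (hfin : Finite S.G)
    -- the quaternions lie in a group `B` of exponent two in which `q` is additive
    {B : Type v} [AddCommGroup B] (hB : ∀ b : B, b + b = 0) (β : S.G → S.G → B)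
    (hmul : ∀ a b c, β a (b * c) = β a b + β a c)
    (hq : ∀ a b c d, β a b = β c d ↔ S.q a b = S.q c d) :
    -- the value groups outside the core have index at most eight
    ((∀ a : S.G, a ∉ Core S → index S a ≤ 8) → Elem S) ∧
    -- less than one eighth of all elements are in `E`
    (8 * (E S).ncard < Nat.card S.G → Elem S) ∧
    -- less than one sixteenth of all elements are in `E` and outside a proper subgroup
    (∀ L : Subgroup S.G, L ≠ ⊤ → 16 * (E S \ L).ncard < Nat.card S.G → Elem S) ∧
    -- the same with the elements `b ∉ H` such that there are at least eight quaternions `q(b,k)`,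
    -- `k ∈ H`, for the closed subgroups `H` of index at least eight
    ((∀ H : Subgroup S.G, Closed S H → 8 ≤ H.index → 8 * (EE S H).ncard < Nat.card S.G ∨
      ∃ L : Subgroup S.G, L ≠ ⊤ ∧ 16 * (EE S H \ L).ncard < Nat.card S.G) → Elem S) := by
  have hA : Pool.Agent.N88.ETC.Add S β := ⟨hB, hmul, hq⟩
  have hsub : {a : S.G | a ∉ Core S ∧ 8 < (D hS a).index} ⊆ E S := fun a ha =>
    ⟨ha.1, lt_of_lt_of_le ha.2 (Pool.Agent.Zk81.Out.index_le_vals hS a)⟩
  have main : Pool.Agent.Zk81.Out.Few S (E S) → Elem S := fun hF =>
    Pool.Agent.Zk81.Out.elem_idx hS hA (hF.mono hsub)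
  refine ⟨fun h => main (Or.inl ?_), fun h => main (Or.inl h),
    fun L hL h => main (Or.inr ⟨L, hL, h⟩), fun h => ?_⟩
  · have : E S = ∅ := by
      rw [Set.eq_empty_iff_forall_notMem]
      rintro a ⟨ha, ha'⟩
      have := h a ha
      omega
    rw [this, Set.ncard_empty]
    exact Nat.card_pos
  · refine Pool.Agent.Zk81.Out.elem_out hS hA fun H hcl hi =>
      Pool.Agent.Zk81.Out.Few.mono (E' := EE S H) (fun b hb => ?_) (h H hcl hi)
    exact ⟨hb.1, Pool.Agent.Zk81.Out.eight_le hS hb⟩

end Pool.Agent.Results.MP_d26ff6_al.ValueGroupsEight
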